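import Mathlib

namespace Pool.Agent.H.MP_2fd64a_an

open Finset Complex Filter Topology

noncomputable def tr (a : ℂ) : ℂ := a / (‖a‖ : ℂ) * ((min ‖a‖ 1 : ℝ) : ℂ)

noncomputable def fac (t v Z : ℂ) : ℂ := t * (starRingEnd ℂ) v + Z + t * v * Z ^ 2

noncomputable def sm (p : ℝ) (t Z : ℂ) : ℝ := ∑ m : Fin 4, ‖fac t (I ^ (m : ℕ)) Z‖ ^ p

lemma fac_norm (t v Z : ℂ) (hZ : ‖Z‖ = 1) : ‖fac t v Z‖ = ‖1 + 2 * t * ((v * Z).re : ℂ)‖ := by
  have h1 : Z * (starRingEnd ℂ) Z = 1 := by rw [Complex.mul_conj, Complex.normSq_eq_norm_sq, hZ]; simp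
  have h2 : fac t v Z = Z * (1 + 2 * t * ((v * Z).re : ℂ)) := by
    have h3 := Complex.add_conj (v * Z)
    rw [map_mul] at h3
    push_cast at h3
    unfold fac
    linear_combination (t * Z) * h3 - t * (starRingEnd ℂ) v * h1
  rw [h2, norm_mul, hZ, one_mul]

lemma two {p : ℝ} (hp : 0 < p) (hp2 : p < 2) (x : ℝ) :
    |1 + x| ^ p + |1 - x| ^ p ≤ 2 * (1 + x ^ 2) ^ (p / 2) ∧
    (x ≠ 0 → |1 + x| ^ p + |1 - x| ^ p < 2 * (1 + x ^ 2) ^ (p / 2)) := by
  have e : ∀ y : ℝ, |y| ^ p = (y ^ 2) ^ (p / 2) := fun y => by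
    rw [← sq_abs, ← Real.rpow_natCast, ← Real.rpow_mul (abs_nonneg y)]; congr 1; push_cast; ring
  have hs : x ≠ 0 → |1 + x| ^ p + |1 - x| ^ p < 2 * (1 + x ^ 2) ^ (p / 2) := by
    intro hx
    have hc0 := (Real.strictConcaveOn_rpow (p := p / 2) (by linarith) (by linarith)).2
    have hc := hc0 (Set.mem_Ici.2 (sq_nonneg (1 + x))) (Set.mem_Ici.2 (sq_nonneg (1 - x)))
      (fun h => hx (by nlinarith)) (by norm_num : (0 : ℝ) < 1 / 2) (by norm_num : (0 : ℝ) < 1 / 2)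
      (by norm_num)
    simp only [smul_eq_mul] at hc
    have e2 : 1 / 2 * (1 + x) ^ 2 + 1 / 2 * (1 - x) ^ 2 = 1 + x ^ 2 := by ring
    rw [e2] at hc
    rw [e, e]; linarith
  refine ⟨?_, hs⟩
  by_cases hx : x = 0
  · subst hx; norm_num
  · exact (hs hx).le

lemma sm_re (p : ℝ) (Z : ℂ) (hZ : ‖Z‖ = 1) : sm p (1 / 2) Z =
    |1 + Z.re| ^ p + |1 - Z.re| ^ p + (|1 + Z.im| ^ p + |1 - Z.im| ^ p) := by
  have e : ∀ y : ℝ, ‖(1 : ℂ) + 2 * (1 / 2) * (y : ℂ)‖ = |1 + y| := fun y => by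
    rw [← Real.norm_eq_abs, ← Complex.norm_real]; congr 1; push_cast; ring
  unfold sm
  simp only [fac_norm _ _ _ hZ, e, Fin.sum_univ_four]
  simp [pow_succ, ← sub_eq_add_neg]
  ring

lemma sm_im (p : ℝ) (Z : ℂ) (hZ : ‖Z‖ = 1) : sm p (I / 2) Z =
    2 * (1 + Z.re ^ 2) ^ (p / 2) + 2 * (1 + Z.im ^ 2) ^ (p / 2) := by
  have e : ∀ y : ℝ, ‖(1 : ℂ) + 2 * (I / 2) * (y : ℂ)‖ ^ p = (1 + y ^ 2) ^ (p / 2) := fun y => by
    have : ‖(1 : ℂ) + 2 * (I / 2) * (y : ℂ)‖ ^ 2 = 1 + y ^ 2 := by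
      rw [← Complex.normSq_eq_norm_sq, Complex.normSq_apply]; simp; ring
    rw [← this, ← Real.rpow_natCast, ← Real.rpow_mul (norm_nonneg _)]; congr 1; push_cast; ring
  unfold sm
  simp only [fac_norm _ _ _ hZ, e, Fin.sum_univ_four]
  simp [pow_succ]
  ring

lemma sm_pos {p : ℝ} (Z : ℂ) (hZ : ‖Z‖ = 1) : 0 < sm p (I / 2) Z := by
  rw [sm_im p Z hZ]; positivity

lemma sm_cont {p : ℝ} (hp : 0 < p) (t : ℂ) : Continuous (sm p t) := by
  unfold sm fac
  refine continuous_finsetSum _ fun m _ => Continuous.rpow_const (by fun_prop) fun _ => Or.inr hp.le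

lemma rho {p : ℝ} (hp : 0 < p) (hp2 : p < 2) : ∃ r : ℝ, 0 ≤ r ∧ r < 1 ∧ ∀ Z : ℂ, ‖Z‖ = 1 →
    sm p (1 / 2) Z ≤ r * sm p (I / 2) Z := by
  have hn : ∀ Z ∈ Metric.sphere (0 : ℂ) 1, ‖Z‖ = 1 := fun Z h => by simpa using h
  obtain ⟨Z0, hZ0, hmax⟩ := (isCompact_sphere (0 : ℂ) 1).exists_isMaxOn
    (f := fun Z => sm p (1 / 2) Z / sm p (I / 2) Z) ⟨1, by simp⟩
    ((sm_cont hp _).continuousOn.div (sm_cont hp _).continuousOn fun Z h => (sm_pos Z (hn Z h)).ne')
  refine ⟨sm p (1 / 2) Z0 / sm p (I / 2) Z0, div_nonneg ?_ (sm_pos Z0 (hn _ hZ0)).le, ?_, fun Z hZ => ?_⟩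
  · exact Finset.sum_nonneg fun m _ => by positivity
  · rw [div_lt_one (sm_pos Z0 (hn _ hZ0)), sm_re p Z0 (hn _ hZ0), sm_im p Z0 (hn _ hZ0)]
    have h1 := two hp hp2 Z0.re
    have h2 := two hp hp2 Z0.im
    by_cases hx : Z0.re = 0
    · have hy : Z0.im ≠ 0 := fun hy => by
        have : Z0 = 0 := Complex.ext hx hy
        have h3 := hn _ hZ0
        rw [this] at h3; simp at h3
      linarith [h1.1, h2.2 hy]
    · linarith [h1.2 hx, h2.1]
  · have := hmax (show Z ∈ Metric.sphere (0 : ℂ) 1 by simpa using hZ)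
    simp only [Set.mem_ofPred_eq] at this
    rwa [div_le_iff₀ (sm_pos Z hZ)] at this

abbrev Idx (k : ℕ) := Fin k → Fin 3

def dg {k : ℕ} (s : Idx k) : ℕ := ∑ i, (s i : ℕ) * 3 ^ (i : ℕ)

def lv {k : ℕ} (s : Idx k) : ℕ := ∑ i, if s i = 1 then 0 else 1

noncomputable def W {k : ℕ} (m : Fin k → Fin 4) (s : Idx k) : ℂ :=
  ∏ i, ![(starRingEnd ℂ) (I ^ (m i : ℕ)), 1, I ^ (m i : ℕ)] (s i)

lemma W_norm {k : ℕ} (m : Fin k → Fin 4) (s : Idx k) : ‖W m s‖ = 1 := by
  unfold W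
  rw [norm_prod]
  refine Finset.prod_eq_one fun i _ => ?_
  generalize s i = j
  fin_cases j <;> simp

lemma lv_le {k : ℕ} (s : Idx k) : lv s ≤ k := by
  unfold lv
  calc _ ≤ ∑ _i : Fin k, 1 := Finset.sum_le_sum fun i _ => by split_ifs <;> simp
    _ = k := by simp

noncomputable def ev {k : ℕ} (a : Idx k → ℂ) (z : ℂ) : ℂ := ∑ s, a s * z ^ dg s

lemma ev_prod {k : ℕ} (m : Fin k → Fin 4) (t z : ℂ) :
    ev (fun s => t ^ lv s * W m s) z = ∏ i : Fin k, fac t (I ^ (m i : ℕ)) (z ^ 3 ^ (i : ℕ)) := by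
  have : ∀ i : Fin k, fac t (I ^ (m i : ℕ)) (z ^ 3 ^ (i : ℕ)) = ∑ j : Fin 3,
      t ^ (if j = 1 then 0 else 1) * ![(starRingEnd ℂ) (I ^ (m i : ℕ)), 1, I ^ (m i : ℕ)] j *
        z ^ ((j : ℕ) * 3 ^ (i : ℕ)) := by
    intro i
    rw [Fin.sum_univ_three]
    have e2 : z ^ (2 * 3 ^ (i : ℕ)) = (z ^ 3 ^ (i : ℕ)) ^ 2 := by rw [← pow_mul, mul_comm]
    simp [fac, e2]
  simp only [this]
  rw [Finset.prod_univ_sum]
  simp only [Fintype.piFinset_univ, ev, dg, lv, W, Finset.prod_mul_distrib, Finset.prod_pow_eq_pow_sum]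

lemma ev_sum {k : ℕ} (p : ℝ) (t z : ℂ) :
    ∑ m : Fin k → Fin 4, ‖ev (fun s => t ^ lv s * W m s) z‖ ^ p =
      ∏ i : Fin k, sm p t (z ^ 3 ^ (i : ℕ)) := by
  unfold sm
  rw [Finset.prod_univ_sum]
  simp only [Fintype.piFinset_univ, ev_prod, norm_prod]
  refine Finset.sum_congr rfl fun m _ => ?_
  rw [Real.finsetProd_rpow _ _ (fun i _ => norm_nonneg _)]

lemma abel (k l : ℕ) (hl : l ≤ k) : (I / 2) ^ l = ∑ j ∈ range (k + 1), I ^ j * (2 - I) *
    (((min ((1 / 2) ^ l) ((1 / 2) ^ j) : ℝ) : ℂ) - ((min ((1 / 2) ^ l) ((1 / 2) ^ (j + 1)) : ℝ) : ℂ))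
    + I ^ (k + 1) * ((min ((1 / 2) ^ l) ((1 / 2) ^ (k + 1)) : ℝ) : ℂ) := by
  have m1 : ∀ j, l ≤ j → (min ((1 / 2) ^ l) ((1 / 2) ^ j) : ℝ) = (1 / 2) ^ j := fun j hj =>
    min_eq_right (pow_le_pow_of_le_one (by norm_num) (by norm_num) hj)
  have m2 : ∀ j, j ≤ l → (min ((1 / 2) ^ l) ((1 / 2) ^ j) : ℝ) = (1 / 2) ^ l := fun j hj =>
    min_eq_left (pow_le_pow_of_le_one (by norm_num) (by norm_num) hj)
  induction k, hl using Nat.le_induction with
  | base =>
    rw [Finset.sum_range_succ, Finset.sum_eq_zero, m1 l le_rfl, m1 (l + 1) (by omega)]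
    · push_cast; rw [div_pow, div_pow, div_pow]; ring
    · intro j hj
      have := Finset.mem_range.1 hj
      rw [m2 j (by omega), m2 (j + 1) (by omega)]; ring
  | succ k hk ih =>
    rw [Finset.sum_range_succ, ih, m1 (k + 1) (by omega), m1 (k + 1 + 1) (by omega)]
    push_cast; ring

noncomputable def Hh {k : ℕ} (m : Fin k → Fin 4) (j : ℕ) : ℂ → ℂ :=
  ev (fun s => ((min ((1 / 2) ^ lv s) ((1 / 2) ^ j) : ℝ) : ℂ) * W m s)

lemma point {k : ℕ} {p : ℝ} (hp : 0 < p) (hp2 : p < 2) (m : Fin k → Fin 4) (z : ℂ) :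
    ‖ev (fun s => (I / 2) ^ lv s * W m s) z‖ ^ p ≤
      (7 * (k + 1)) ^ 2 * ∑ j ∈ range (k + 2), ‖Hh m j z‖ ^ p := by
  have e : ev (fun s => (I / 2) ^ lv s * W m s) z =
      ∑ j ∈ range (k + 1), I ^ j * (2 - I) * (Hh m j z - Hh m (j + 1) z) + I ^ (k + 1) * Hh m (k + 1) z := by
    unfold Hh ev
    simp only [← Finset.sum_sub_distrib, Finset.mul_sum]
    rw [Finset.sum_comm, ← Finset.sum_add_distrib]
    refine Finset.sum_congr rfl fun s _ => ?_
    rw [abel k (lv s) (lv_le s), add_mul, add_mul, Finset.sum_mul, Finset.sum_mul]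
    congr 1
    · exact Finset.sum_congr rfl fun j _ => by ring
    · ring
  obtain ⟨j0, hj0, hmax⟩ := (range (k + 2)).exists_max_image (fun j => ‖Hh m j z‖) ⟨0, by simp⟩
  have h3 : ‖(2 : ℂ) - I‖ ≤ 3 := (norm_sub_le _ _).trans (by simp; norm_num)
  have hb : ‖ev (fun s => (I / 2) ^ lv s * W m s) z‖ ≤ 7 * (k + 1) * ‖Hh m j0 z‖ := by
    rw [e]
    refine (norm_add_le _ _).trans ?_
    have a1 : ‖∑ j ∈ range (k + 1), I ^ j * (2 - I) * (Hh m j z - Hh m (j + 1) z)‖ ≤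
        ∑ _j ∈ range (k + 1), 6 * ‖Hh m j0 z‖ := by
      refine norm_sum_le_of_le _ fun j hj => ?_
      have := Finset.mem_range.1 hj
      have b1 := hmax j (Finset.mem_range.2 (by omega))
      have b2 := hmax (j + 1) (Finset.mem_range.2 (by omega))
      have b3 := norm_sub_le (Hh m j z) (Hh m (j + 1) z)
      rw [norm_mul, norm_mul, norm_pow, norm_I, one_pow, one_mul]
      calc _ ≤ 3 * (2 * ‖Hh m j0 z‖) := mul_le_mul h3 (by linarith) (norm_nonneg _) (by norm_num)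
        _ = _ := by ring
    have a2 := hmax (k + 1) (Finset.mem_range.2 (by omega))
    rw [norm_mul, norm_pow, norm_I, one_pow, one_mul]
    rw [Finset.sum_const, Finset.card_range, nsmul_eq_mul] at a1
    push_cast at a1
    have : (0 : ℝ) ≤ k * ‖Hh m j0 z‖ := by positivity
    nlinarith
  have hk : (1 : ℝ) ≤ 7 * (k + 1) := by have : (0 : ℝ) ≤ k := by positivity
                                        linarith
  calc _ ≤ (7 * (k + 1) * ‖Hh m j0 z‖) ^ p := Real.rpow_le_rpow (norm_nonneg _) hb hp.le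
    _ = (7 * (k + 1)) ^ p * ‖Hh m j0 z‖ ^ p := Real.mul_rpow (by linarith) (norm_nonneg _)
    _ ≤ _ := by
      refine mul_le_mul ?_ (Finset.single_le_sum (f := fun j => ‖Hh m j z‖ ^ p)
        (fun j _ => by positivity) hj0) (by positivity) (by positivity)
      rw [← Real.rpow_natCast]
      exact Real.rpow_le_rpow_of_exponent_le hk (by push_cast; linarith)

noncomputable def J (p : ℝ) (g : ℂ → ℂ) : ℝ := ∫ x in (0 : ℝ)..(2 * Real.pi), ‖g (exp (x * I))‖ ^ p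

lemma cont {k : ℕ} {p : ℝ} (hp : 0 < p) (a : Idx k → ℂ) :
    Continuous fun x : ℝ => ‖ev a (exp (x * I))‖ ^ p := by
  unfold ev
  exact Continuous.rpow_const (by fun_prop) fun _ => Or.inr hp.le

lemma tr_eq (r : ℝ) (hr : 0 < r) (w : ℂ) (hw : ‖w‖ = 1) : tr (r * w) = ((min r 1 : ℝ) : ℂ) * w := by
  unfold tr
  rw [norm_mul, hw, mul_one, Complex.norm_real, Real.norm_of_nonneg hr.le]
  have : (r : ℂ) ≠ 0 := by exact_mod_cast hr.ne'
  field_simp

lemma J_smul {k : ℕ} (p : ℝ) (c : ℝ) (hc : 0 ≤ c) (a : Idx k → ℂ) :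
    J p (ev fun s => c * a s) = c ^ p * J p (ev a) := by
  unfold J
  rw [← intervalIntegral.integral_const_mul]
  congr 1; funext x
  have : ev (fun s => c * a s) (exp (x * I)) = c * ev a (exp (x * I)) := by
    unfold ev; rw [Finset.mul_sum]; exact Finset.sum_congr rfl fun s _ => by ring
  rw [this, norm_mul, Real.mul_rpow (norm_nonneg _) (norm_nonneg _), Complex.norm_real,
    Real.norm_of_nonneg hc]

theorem core {p : ℝ} (hp : 0 < p) (hp2 : p < 2) (C : ℝ) (hC : 0 ≤ C)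
    (h : ∀ (k : ℕ) (a : Idx k → ℂ), J p (ev fun s => tr (a s)) ≤ C * J p (ev a)) : False := by
  obtain ⟨r, hr0, hr1, hr⟩ := rho hp hp2
  have hpi : (0 : ℝ) ≤ 2 * Real.pi := by positivity
  have hH : ∀ (k : ℕ) (m : Fin k → Fin 4) (j : ℕ),
      J p (Hh m j) ≤ C * J p (ev fun s => (1 / 2) ^ lv s * W m s) := by
    intro k m j
    have h1 := h k (fun s => ((2 ^ j : ℝ) : ℂ) * ((1 / 2) ^ lv s * W m s))
    rw [J_smul p _ (by positivity)] at h1
    have e : Hh m j = ev fun s => (((1 / 2) ^ j : ℝ) : ℂ) *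
        tr (((2 ^ j : ℝ) : ℂ) * ((1 / 2) ^ lv s * W m s)) := by
      unfold Hh
      congr 1; funext s
      have : ((2 ^ j : ℝ) : ℂ) * ((1 / 2) ^ lv s * W m s) = ((2 ^ j * (1 / 2) ^ lv s : ℝ) : ℂ) * W m s := by
        push_cast; ring
      rw [this, tr_eq _ (by positivity) _ (W_norm m s), ← mul_assoc, ← Complex.ofReal_mul,
        mul_min_of_nonneg _ _ (by positivity), ← mul_assoc, ← mul_pow]
      norm_num
    rw [e, J_smul p _ (by positivity)]
    have e2 : (((1 / 2 : ℝ)) ^ j) ^ p * ((2 : ℝ) ^ j) ^ p = 1 := by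
      rw [← Real.mul_rpow (by positivity) (by positivity), ← mul_pow]; norm_num
    calc _ ≤ ((1 / 2 : ℝ) ^ j) ^ p * (C * ((2 ^ j) ^ p * J p (ev fun s => (1 / 2) ^ lv s * W m s))) :=
          mul_le_mul_of_nonneg_left h1 (by positivity)
      _ = (((1 / 2 : ℝ) ^ j) ^ p * ((2 : ℝ) ^ j) ^ p) * (C * J p (ev fun s => (1 / 2) ^ lv s * W m s)) := by
          ring
      _ = _ := by rw [e2, one_mul]
  have key : ∀ k : ℕ, 1 ≤ (7 * ((k : ℝ) + 1)) ^ 2 * (k + 2) * C * r ^ k := by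
    intro k
    have s1 : ∀ m : Fin k → Fin 4, J p (ev fun s => (I / 2) ^ lv s * W m s) ≤
        (7 * ((k : ℝ) + 1)) ^ 2 * (k + 2) * C * J p (ev fun s => (1 / 2) ^ lv s * W m s) := by
      intro m
      have i1 : J p (ev fun s => (I / 2) ^ lv s * W m s) ≤
          (7 * ((k : ℝ) + 1)) ^ 2 * ∑ j ∈ range (k + 2), J p (Hh m j) := by
        unfold J Hh
        rw [← intervalIntegral.integral_finsetSum fun j _ => (cont hp _).intervalIntegrable _ _,
          ← intervalIntegral.integral_const_mul]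
        refine intervalIntegral.integral_mono_on hpi ((cont hp _).intervalIntegrable _ _) ?_
          fun x _ => point hp hp2 m _
        exact (continuous_const.mul (continuous_finsetSum _ fun j _ => cont hp _)).intervalIntegrable _ _
      have i2 : ∑ j ∈ range (k + 2), J p (Hh m j) ≤
          ∑ _j ∈ range (k + 2), C * J p (ev fun s => (1 / 2) ^ lv s * W m s) :=
        Finset.sum_le_sum fun j _ => hH k m j
      rw [Finset.sum_const, Finset.card_range, nsmul_eq_mul] at i2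
      push_cast at i2
      calc _ ≤ _ := i1
        _ ≤ _ := mul_le_mul_of_nonneg_left i2 (by positivity)
        _ = _ := by ring
    have hn : ∀ (x : ℝ) (n : ℕ), ‖exp (x * I) ^ n‖ = 1 := fun x n => by
      rw [norm_pow, Complex.norm_exp_ofReal_mul_I, one_pow]
    have s2 : ∀ t : ℂ, ∑ m : Fin k → Fin 4, J p (ev fun s => t ^ lv s * W m s) =
        ∫ x in (0 : ℝ)..(2 * Real.pi), ∏ i : Fin k, sm p t (exp (x * I) ^ 3 ^ (i : ℕ)) := by
      intro t
      unfold J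
      rw [← intervalIntegral.integral_finsetSum fun j _ => (cont hp _).intervalIntegrable _ _]
      simp only [ev_sum]
    have c2 : ∀ t : ℂ, Continuous fun x : ℝ => ∏ i : Fin k, sm p t (exp (x * I) ^ 3 ^ (i : ℕ)) :=
      fun t => continuous_finsetProd _ fun i _ => (sm_cont hp t).comp (by fun_prop)
    have s3 : ∑ m : Fin k → Fin 4, J p (ev fun s => (1 / 2) ^ lv s * W m s) ≤
        r ^ k * ∑ m : Fin k → Fin 4, J p (ev fun s => (I / 2) ^ lv s * W m s) := by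
      rw [s2, s2, ← intervalIntegral.integral_const_mul]
      refine intervalIntegral.integral_mono_on hpi ((c2 _).intervalIntegrable _ _)
        ((continuous_const.mul (c2 _)).intervalIntegrable _ _) fun x _ => ?_
      calc _ ≤ ∏ i : Fin k, r * sm p (I / 2) (exp (x * I) ^ 3 ^ (i : ℕ)) :=
            Finset.prod_le_prod (fun i _ => Finset.sum_nonneg fun m _ => by positivity)
              fun i _ => hr _ (hn x _)
        _ = _ := by rw [Finset.prod_mul_distrib]; simp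
    have s4 : 0 < ∑ m : Fin k → Fin 4, J p (ev fun s => (I / 2) ^ lv s * W m s) := by
      rw [s2]
      exact intervalIntegral.intervalIntegral_pos_of_pos ((c2 _).intervalIntegrable _ _)
        (fun x => Finset.prod_pos fun i _ => sm_pos _ (hn x _)) (by positivity)
    have s5 := Finset.sum_le_sum fun m (_ : m ∈ (Finset.univ : Finset (Fin k → Fin 4))) => s1 m
    rw [← Finset.mul_sum] at s5
    have s6 := s5.trans (mul_le_mul_of_nonneg_left s3 (by positivity))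
    rw [← mul_assoc] at s6
    exact le_of_mul_le_mul_right (by rwa [one_mul]) s4
  have lim : ∀ n : ℕ, Tendsto (fun k : ℕ => (k : ℝ) ^ n * r ^ k) atTop (𝓝 0) := fun n =>
    tendsto_pow_const_mul_const_pow_of_abs_lt_one n (by rwa [abs_of_nonneg hr0])
  have lim2 := ((((lim 3).add ((lim 2).const_mul 4)).add ((lim 1).const_mul 5)).add
    ((lim 0).const_mul 2)).const_mul (49 * C)
  have := ge_of_tendsto' lim2 fun k => (key k).trans (le_of_eq (by ring))
  norm_num at this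

lemma dg_inj (k : ℕ) : Function.Injective (dg (k := k)) := by
  intro s t h
  apply finFunctionFinEquiv.injective
  ext
  rw [finFunctionFinEquiv_apply, finFunctionFinEquiv_apply]
  exact h

open Polynomial in
theorem poly {p : ℝ} (hp : 0 < p) (hp2 : p < 2) (c : ℝ) : ∃ (n : ℕ) (P : ℂ[X]), P ≠ 0 ∧
    P.natDegree ≤ n ∧ c * (J p fun z => P.eval z) ^ (1 / p) <
      (J p fun z => (∑ j ∈ range (n + 1), monomial j (tr (P.coeff j))).eval z) ^ (1 / p) := by
  by_contra hcon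
  push Not at hcon
  have J0 : ∀ g, 0 ≤ J p g := fun g =>
    intervalIntegral.integral_nonneg (by positivity) fun x _ => by positivity
  refine core hp hp2 (|c| ^ p) (by positivity) fun k a => ?_
  classical
  have co : ∀ (b : Idx k → ℂ) (s : Idx k), (∑ t, monomial (dg t) (b t) : ℂ[X]).coeff (dg s) = b s := by
    intro b s
    rw [finsetSum_coeff, Finset.sum_eq_single s]
    · simp
    · intro t _ ht
      rw [coeff_monomial, if_neg (fun e => ht (dg_inj k e))]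
    · simp
  have co0 : ∀ (b : Idx k → ℂ) (j : ℕ), (∀ s : Idx k, dg s ≠ j) →
      (∑ t, monomial (dg t) (b t) : ℂ[X]).coeff j = 0 := by
    intro b j hj
    rw [finsetSum_coeff]
    exact Finset.sum_eq_zero fun t _ => by rw [coeff_monomial, if_neg (hj t)]
  have evl : ∀ b : Idx k → ℂ, (fun z => (∑ t, monomial (dg t) (b t) : ℂ[X]).eval z) = ev b := by
    intro b; funext z; simp [ev, eval_finsetSum]
  set P : ℂ[X] := ∑ t, monomial (dg t) (a t) with hP
  have tr0 : tr 0 = 0 := by simp [tr]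
  by_cases h0 : P = 0
  · have : ∀ s, a s = 0 := fun s => by rw [← co a s, ← hP, h0]; simp
    simp [this, tr0, ev, J, hp.ne']
  have h1 := hcon P.natDegree P h0 le_rfl
  have e : (∑ j ∈ range (P.natDegree + 1), monomial j (tr (P.coeff j)) : ℂ[X]) =
      ∑ t, monomial (dg t) (tr (a t)) := by
    ext j
    have e1 : (∑ j ∈ range (P.natDegree + 1), monomial j (tr (P.coeff j)) : ℂ[X]).coeff j =
        tr (P.coeff j) := by
      rw [finsetSum_coeff]
      simp only [coeff_monomial, Finset.sum_ite_eq', Finset.mem_range]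
      split_ifs with h
      · rfl
      · rw [coeff_eq_zero_of_natDegree_lt (by omega), tr0]
    rw [e1]
    by_cases hj : ∃ s : Idx k, dg s = j
    · obtain ⟨s, rfl⟩ := hj
      rw [co, co]
    · push Not at hj
      rw [co0 _ j hj, co0 _ j hj, tr0]
  rw [e, evl, hP, evl] at h1
  have h2 : J p (ev fun s => tr (a s)) ^ (1 / p) ≤ |c| * J p (ev a) ^ (1 / p) :=
    h1.trans (mul_le_mul_of_nonneg_right (le_abs_self c) (Real.rpow_nonneg (J0 _) _))
  have h3 := Real.rpow_le_rpow (Real.rpow_nonneg (J0 _) _) h2 hp.le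
  rw [Real.mul_rpow (abs_nonneg _) (Real.rpow_nonneg (J0 _) _), ← Real.rpow_mul (J0 _),
    ← Real.rpow_mul (J0 _), one_div_mul_cancel hp.ne', Real.rpow_one, Real.rpow_one] at h3
  exact h3

end Pool.Agent.H.MP_2fd64a_an
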